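import Pool.Agent.N352.PF.Cnt

/-!
# Project PF, part DSC: discriminant and separability modulo a prime ideal (helper195; port of the
version over the integers of helper262)
-/

set_option autoImplicit false

open Polynomial NumberField IsDedekindDomain
open scoped Classical

namespace Pool.Agent.N195.PF

open Pool.Agent.N352.PF

/-- Resultant with the formal degrees of a separable monic polynomial over a field. -/
theorem dsc_field {k : Type*} [Field k] (g : ℕ) (f : k[X]) (hm : f.Monic)
    (hd : f.natDegree = 2 * g + 1) (hs : f.Separable) :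
    f.resultant (derivative f) (2 * g + 1) (2 * g) ≠ 0 := by
  obtain ⟨j, hj⟩ : ∃ j, 2 * g = (derivative f).natDegree + j := by
    have := natDegree_derivative_le f
    exact ⟨2 * g - (derivative f).natDegree, by omega⟩
  have h4 : f.resultant (derivative f) (2 * g + 1) (2 * g) =
      f.resultant (derivative f) (2 * g + 1) ((derivative f).natDegree + j) := by rw [← hj]
  rw [h4, resultant_add_right_deg _ _ _ _ _ le_rfl]
  have h5 : f.coeff (2 * g + 1) = 1 := by rw [← hd]; exact hm.coeff_natDegree
  rw [h5, one_pow, one_mul, ← hd]
  exact resultant_ne_zero _ _ hs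

/-- Discriminant and separability modulo a prime ideal. -/
theorem dscp : S_DSC := by
  intro F _ _ g v f f' hg hm hd hc hs
  have hv : v.asIdeal.IsPrime := v.isPrime
  have hmax : v.asIdeal.IsMaximal := v.isMaximal
  have hnt : Nontrivial (𝓞 F ⧸ v.asIdeal) := Ideal.Quotient.nontrivial_iff.mpr hv.ne_top
  have h1 : rv v f = rv v f' := by
    ext j
    rw [coeff_map, coeff_map]
    exact (Ideal.Quotient.mk_eq_mk_iff_sub_mem _ _).mpr (hc j)
  rw [← h1] at hs
  have h2 : Ideal.Quotient.mk v.asIdeal (dsc g f) =
      (rv v f).resultant (derivative (rv v f)) (2 * g + 1) (2 * g) := by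
    rw [dsc, derivative_map, resultant_map_map]
  have hdeg : (rv v f).natDegree = 2 * g + 1 := by
    rw [hm.natDegree_map, hd]
  have hmon : (rv v f).Monic := hm.map _
  letI := Ideal.Quotient.field v.asIdeal
  have h3 := dsc_field g (rv v f) hmon hdeg hs
  intro h
  rw [← Ideal.Quotient.eq_zero_iff_mem, h2] at h
  exact h3 h

end Pool.Agent.N195.PF
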