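import Pool.Agent.N352.PF.Cnt

/-!
# Project PF, parts PF and PR: prime ideals of a number field (helper195)
-/

set_option autoImplicit false

open Polynomial NumberField IsDedekindDomain
open scoped Classical

namespace Pool.Agent.N195.PF

open Pool.Agent.N352.PF

section

variable {F : Type} [Field F] [NumberField F]

theorem nv_ne_zero (v : HeightOneSpectrum (𝓞 F)) : nv v ≠ 0 := by
  unfold nv
  rw [Ne, Ideal.absNorm_eq_zero_iff]
  exact v.ne_bot

theorem nv_two_le (v : HeightOneSpectrum (𝓞 F)) : 2 ≤ nv v := by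
  have h0 := nv_ne_zero v
  have h1 : nv v ≠ 1 := by
    unfold nv
    rw [Ne, Ideal.absNorm_eq_one_iff]
    exact v.isPrime.ne_top
  omega

theorem absNorm_nat (m : ℕ) : Ideal.absNorm (Ideal.span {(m : 𝓞 F)}) = m ^ dg F := by
  rw [Ideal.absNorm_span_singleton]
  have h1 : (m : 𝓞 F) = algebraMap ℤ (𝓞 F) m := by simp
  rw [h1, Algebra.norm_algebraMap, NumberField.RingOfIntegers.rank]
  simp [Int.natAbs_pow]

theorem nv_dvd {v : HeightOneSpectrum (𝓞 F)} {m : ℕ} (h : (m : 𝓞 F) ∈ v.asIdeal) :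
    nv v ∣ m ^ dg F := by
  rw [← absNorm_nat]
  exact Ideal.absNorm_dvd_absNorm_of_le ((Ideal.span_singleton_le_iff_mem _).mpr h)

theorem nv_le {v : HeightOneSpectrum (𝓞 F)} {m : ℕ} (hm : 0 < m) (h : (m : 𝓞 F) ∈ v.asIdeal) :
    nv v ≤ m ^ dg F := Nat.le_of_dvd (pow_pos hm _) (nv_dvd h)

/-- a prime number in a prime ideal divides the norm -/
theorem dvd_nv {v : HeightOneSpectrum (𝓞 F)} {p : ℕ} (hp : p.Prime)
    (h : (p : 𝓞 F) ∈ v.asIdeal) : p ∣ nv v := by
  by_contra hcon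
  have hc : Nat.Coprime p (nv v) := (Nat.Prime.coprime_iff_not_dvd hp).mpr hcon
  have h1 : (nv v : 𝓞 F) ∈ v.asIdeal := Ideal.absNorm_mem v.asIdeal
  apply v.isPrime.ne_top
  rw [Ideal.eq_top_iff_one]
  have h2 := Nat.isCoprime_iff_coprime.mpr hc
  obtain ⟨a, b, hab⟩ := h2
  have h3 : ((a : ℤ) : 𝓞 F) * (p : 𝓞 F) + ((b : ℤ) : 𝓞 F) * (nv v : 𝓞 F) = 1 := by
    exact_mod_cast congrArg (fun t : ℤ => (t : 𝓞 F)) hab
  rw [← h3]
  exact Ideal.add_mem _ (Ideal.mul_mem_left _ _ h) (Ideal.mul_mem_left _ _ h1)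

/-- a prime number in a prime ideal -/
theorem exists_prime_mem (v : HeightOneSpectrum (𝓞 F)) :
    ∃ p : ℕ, p.Prime ∧ (p : 𝓞 F) ∈ v.asIdeal := by
  have h1 : (nv v : 𝓞 F) ∈ v.asIdeal := Ideal.absNorm_mem v.asIdeal
  have key : ∀ n : ℕ, 0 < n → (n : 𝓞 F) ∈ v.asIdeal →
      ∃ p : ℕ, p.Prime ∧ (p : 𝓞 F) ∈ v.asIdeal := by
    intro n
    induction n using Nat.strong_induction_on with
    | _ n ih =>
      intro hn hmem
      rcases eq_or_ne n 1 with h | h
      · exfalso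
        subst h
        rw [Nat.cast_one] at hmem
        exact v.isPrime.ne_top ((Ideal.eq_top_iff_one _).mpr hmem)
      · obtain ⟨p, hp, k, hk⟩ := Nat.exists_prime_and_dvd h
        rw [hk, Nat.cast_mul] at hmem
        rcases v.isPrime.mem_or_mem hmem with h2 | h2
        · exact ⟨p, hp, h2⟩
        · have hk0 : 0 < k := by
            rcases Nat.eq_zero_or_pos k with h3 | h3
            · subst h3
              omega
            · exact h3
          refine ih k ?_ hk0 h2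
          rw [hk]
          have := hp.two_le
          nlinarith
  exact key _ (Nat.pos_of_ne_zero (nv_ne_zero v)) h1

/-- at most `d` prime ideals contain a prime number -/
theorem card_le (T : Finset (HeightOneSpectrum (𝓞 F))) {p : ℕ} (hp : p.Prime)
    (hT : ∀ v ∈ T, (p : 𝓞 F) ∈ v.asIdeal) : T.card ≤ dg F := by
  have hinj : Function.Injective (fun v : HeightOneSpectrum (𝓞 F) => v.asIdeal) :=
    fun v w h => HeightOneSpectrum.ext h
  have h1 : ∏ I ∈ T.image (fun v => v.asIdeal), I ∣ Ideal.span {(p : 𝓞 F)} := by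
    apply Finset.prod_primes_dvd
    · intro I hI
      obtain ⟨v, -, rfl⟩ := Finset.mem_image.mp hI
      exact v.prime
    · intro I hI
      obtain ⟨v, hv, rfl⟩ := Finset.mem_image.mp hI
      rw [Ideal.dvd_iff_le]
      exact (Ideal.span_singleton_le_iff_mem _).mpr (hT v hv)
  rw [Finset.prod_image (fun v _ w _ h => hinj h)] at h1
  have h2 := map_dvd Ideal.absNorm h1
  rw [map_prod, absNorm_nat] at h2
  have h3 : p ^ T.card ∣ p ^ dg F := by
    refine dvd_trans ?_ h2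
    rw [← Finset.prod_const]
    exact Finset.prod_dvd_prod_of_dvd _ _ (fun v hv => dvd_nv hp (hT v hv))
  exact (Nat.pow_dvd_pow_iff_le_right hp.one_lt).mp h3

end

/-- The prime ideals of bounded norm are finite in number. -/
theorem pf : S_PF := by
  intro F _ _
  refine ⟨fun M => ?_, fun v m hm h => nv_le hm h, fun v => nv_two_le v⟩
  have h1 : {I : Ideal (𝓞 F) | Ideal.absNorm I ≤ M}.Finite := Ideal.finite_setOfPred_absNorm_le M
  refine Set.Finite.of_finite_image (f := fun v : HeightOneSpectrum (𝓞 F) => v.asIdeal)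
    (h1.subset ?_) (fun v _ w _ h => HeightOneSpectrum.ext h)
  rintro _ ⟨v, hv, rfl⟩
  exact hv

/-- The sum of `N(v) ^ (-2)` over the large prime ideals is small. -/
theorem pr : S_PR := by
  intro F _ _ ε hε
  obtain ⟨m, hm⟩ := exists_nat_ge ((dg F : ℝ) / ε + 1)
  have hd0 : 0 ≤ (dg F : ℝ) / ε := by positivity
  have hm1 : (1 : ℝ) ≤ m := by linarith
  have hm0 : m ≠ 0 := by
    rintro rfl
    norm_num at hm1
  refine ⟨m ^ dg F, fun T hT => ?_⟩
  choose p hp hpm using (exists_prime_mem (F := F))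
  have hpv : ∀ v ∈ T, m < p v := by
    intro v hv
    have h1 := (hT v hv).trans_le (nv_le (hp v).pos (hpm v))
    exact lt_of_pow_lt_pow_left₀ _ (Nat.zero_le _) h1
  have hple : ∀ v, (p v : ℝ) ≤ nv v := by
    intro v
    exact_mod_cast Nat.le_of_dvd (Nat.pos_of_ne_zero (nv_ne_zero v)) (dvd_nv (hp v) (hpm v))
  have h1 : ∑ v ∈ T, 1 / ((nv v : ℝ) ^ 2) ≤ ∑ v ∈ T, 1 / ((p v : ℝ) ^ 2) := by
    apply Finset.sum_le_sum
    intro v _
    have : (0 : ℝ) < p v := by exact_mod_cast (hp v).pos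
    exact one_div_le_one_div_of_le (by positivity) (pow_le_pow_left₀ this.le (hple v) 2)
  have h2 : ∑ v ∈ T, 1 / ((p v : ℝ) ^ 2) =
      ∑ q ∈ T.image p, ((T.filter (fun v => p v = q)).card : ℝ) * (1 / ((q : ℝ) ^ 2)) := by
    rw [← Finset.sum_fiberwise_of_maps_to (g := p) (t := T.image p)
      (fun v hv => Finset.mem_image_of_mem p hv)]
    apply Finset.sum_congr rfl
    intro q _
    rw [← nsmul_eq_mul, ← Finset.sum_const]
    apply Finset.sum_congr rfl
    intro v hv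
    rw [(Finset.mem_filter.mp hv).2]
  have h3 : ∀ q ∈ T.image p, ((T.filter (fun v => p v = q)).card : ℝ) ≤ dg F := by
    intro q hq
    obtain ⟨w, hw, hwq⟩ := Finset.mem_image.mp hq
    have := card_le (T.filter (fun v => p v = q)) (p := q) (by rw [← hwq]; exact hp w) (by
      intro v hv
      have h4 := (Finset.mem_filter.mp hv).2
      rw [← h4]
      exact hpm v)
    exact_mod_cast this
  have h4 : ∑ q ∈ T.image p, 1 / ((q : ℝ) ^ 2) ≤ 1 / (m : ℝ) := by
    obtain ⟨K, hK⟩ : ∃ K : ℕ, T.image p ⊆ Finset.Ioc m (m + K) := by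
      refine ⟨(T.image p).sup id, ?_⟩
      intro q hq
      have h5 : q ≤ (T.image p).sup id := Finset.le_sup (f := id) hq
      obtain ⟨w, hw, hwq⟩ := Finset.mem_image.mp hq
      have h6 := hpv w hw
      rw [Finset.mem_Ioc]
      omega
    calc ∑ q ∈ T.image p, 1 / ((q : ℝ) ^ 2) ≤ ∑ q ∈ Finset.Ioc m (m + K), 1 / ((q : ℝ) ^ 2) :=
          Finset.sum_le_sum_of_subset_of_nonneg hK (fun _ _ _ => by positivity)
      _ = ∑ q ∈ Finset.Ioc m (m + K), ((q : ℝ) ^ 2)⁻¹ := by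
          apply Finset.sum_congr rfl
          intro q _
          rw [one_div]
      _ ≤ (m : ℝ)⁻¹ - ((m + K : ℕ) : ℝ)⁻¹ := sum_Ioc_inv_sq_le_sub hm0 (by omega)
      _ ≤ 1 / (m : ℝ) := by
          have : (0 : ℝ) ≤ ((m + K : ℕ) : ℝ)⁻¹ := by positivity
          rw [one_div]
          linarith
  calc ∑ v ∈ T, 1 / ((nv v : ℝ) ^ 2) ≤ ∑ v ∈ T, 1 / ((p v : ℝ) ^ 2) := h1
    _ = ∑ q ∈ T.image p, ((T.filter (fun v => p v = q)).card : ℝ) * (1 / ((q : ℝ) ^ 2)) := h2
    _ ≤ ∑ q ∈ T.image p, (dg F : ℝ) * (1 / ((q : ℝ) ^ 2)) := by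
        apply Finset.sum_le_sum
        intro q hq
        exact mul_le_mul_of_nonneg_right (h3 q hq) (by positivity)
    _ = (dg F : ℝ) * ∑ q ∈ T.image p, (1 / ((q : ℝ) ^ 2)) := by rw [Finset.mul_sum]
    _ ≤ (dg F : ℝ) * (1 / (m : ℝ)) := mul_le_mul_of_nonneg_left h4 (Nat.cast_nonneg _)
    _ ≤ ε := by
        rw [mul_one_div, div_le_iff₀ (by linarith)]
        have h5 : (dg F : ℝ) / ε ≤ m := by linarith
        rw [div_le_iff₀ hε] at h5
        linarith

end Pool.Agent.N195.PF
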